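import Pool.Agent.Lib.NPCG.Link

/-!
# Invariant metrics of nonpositive curvature on 3-manifolds (MP_6b3077_gt)

`M` is a smooth 3-manifold, `G` a finite group acting smoothly on `M` (fixed points and orientation
reversing elements are allowed), `X` a `G`-invariant geometric decomposition of `M` in collar form.
If the compatibility equations of the decomposition (Buyalo-Kobelskii, Leeb) have a solution, which is
not assumed to be `G`-invariant, then `M` has a `G`-invariant smooth Riemannian metric of nonpositive
sectional curvature. It is flat along the tori and Klein bottles of the decomposition, it is the given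
hyperbolic metric on the cores of the hyperbolic pieces, and on the cores of the Seifert pieces it is
locally the product of the metric of the base and a metric of the fibres. The converse is clear.
-/

open InvNPC
open scoped Manifold ContDiff

namespace Pool.Agent.Results.MP_6b3077_gt.InvariantMetrics

theorem result {M : Type*} [TopologicalSpace M] [T2Space M] [ChartedSpace E3 M]
    [IsManifold (𝓡 3) ∞ M] {G : Type*} [Group G] [Finite G] [MulAction G M]
    (hG : SmoothAction M G) {E : Type*} [Finite E] [MulAction G E] (X : Decomp M G E) :
    (∃ b q, Compatible X b q) ↔
      ∃ g q, IsNPC g ∧ Inv G g ∧ Compatible X g q ∧ Adapted X g q := by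
  constructor
  · rintro ⟨b, q, hb⟩
    exact exists_adapted hG X hb
  · rintro ⟨g, q, -, -, h, -⟩
    exact ⟨g, q, h⟩

end Pool.Agent.Results.MP_6b3077_gt.InvariantMetrics
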